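import Pool.Agent.Helper26.TK.Space

/-!
MP_c88f67_an, packet TK-D: closure properties of the norming set `Phi f`.
-/

namespace Pool.Agent.Helper36.TK

open Filter Topology Pool.Agent.Helper26.TK

variable {f : (ℕ → ℕ) → (ℕ → Bool)} {x x' : ℕ → Bool}

theorem Dx_congr {ψ ψ' : ℕ → ℝ} (h : Dx f x ψ) (e : ∀ n, ψ' n = ψ n) : Dx f x ψ' := by
  have : ψ' = ψ := funext e
  rw [this]; exact h

theorem Dx_zero' {ψ : ℕ → ℝ} (e : ∀ n, ψ n = 0) : Dx f x ψ := Dx_congr Dx.zero e

/-- supports of different terms are disjoint -/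
theorem supp_unique {k : ℕ} {a : ℕ → ℕ} {ψ : ℕ → ℕ → ℝ} (ha : StrictMono a)
    (hs : ∀ i < k, ∀ n, ψ i n ≠ 0 → a i ≤ n ∧ (i + 1 < k → n < a (i + 1))) {i j n : ℕ}
    (hi : i < k) (hj : j < k) (h : ψ i n ≠ 0) (h' : ψ j n ≠ 0) : i = j := by
  have key : ∀ i j, i < k → j < k → ψ i n ≠ 0 → ψ j n ≠ 0 → ¬ i < j := by
    intro i j hi hj h h' hij
    have h1 := (hs i hi n h).2 (by omega)
    have h2 := (hs j hj n h').1
    have h3 : a (i + 1) ≤ a j := ha.monotone hij
    omega
  have h1 := key i j hi hj h h'
  have h2 := key j i hj hi h' h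
  omega

theorem Dx_nonneg {ψ : ℕ → ℝ} (h : Dx f x ψ) : ∀ n, 0 ≤ ψ n := by
  induction h with
  | zero => intro n; exact le_rfl
  | single m => intro n; dsimp only; split_ifs <;> norm_num
  | step k a ψ ha hk hψ hs ih =>
    intro n
    have : 0 ≤ ∑ i ∈ Finset.range k, ψ i n :=
      Finset.sum_nonneg fun i hi => ih i (Finset.mem_range.mp hi) n
    dsimp only
    linarith

theorem Dx_le_one {ψ : ℕ → ℝ} (h : Dx f x ψ) : ∀ n, ψ n ≤ 1 := by
  induction h with
  | zero => intro n; norm_num
  | single m => intro n; dsimp only; split_ifs <;> norm_num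
  | step k a ψ ha hk hψ hs ih =>
    intro n
    dsimp only
    by_cases hex : ∃ i < k, ψ i n ≠ 0
    · obtain ⟨i, hi, hne⟩ := hex
      rw [Finset.sum_eq_single i]
      · have := ih i hi n
        linarith
      · intro j hj hji
        by_contra hcon
        exact hji (supp_unique ha hs (Finset.mem_range.mp hj) hi hcon hne)
      · intro h; exact absurd (Finset.mem_range.mpr hi) h
    · push Not at hex
      rw [Finset.sum_eq_zero fun i hi => hex i (Finset.mem_range.mp hi)]
      norm_num

theorem Dx_finite {ψ : ℕ → ℝ} (h : Dx f x ψ) : ∃ M : ℕ, ∀ n, M < n → ψ n = 0 := by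
  induction h with
  | zero => exact ⟨0, fun _ _ => rfl⟩
  | single m => exact ⟨m, fun n hn => if_neg (by omega)⟩
  | step k a ψ ha hk hψ hs ih =>
    choose! M hM using ih
    refine ⟨∑ i ∈ Finset.range k, M i, fun n hn => ?_⟩
    have : ∀ i ∈ Finset.range k, ψ i n = 0 := by
      intro i hi
      apply hM i (Finset.mem_range.mp hi)
      have := Finset.single_le_sum (f := M) (fun _ _ => Nat.zero_le _) hi
      omega
    dsimp only
    rw [Finset.sum_eq_zero this, mul_zero]

open Classical in
theorem Dx_restrict {ψ : ℕ → ℝ} (h : Dx f x ψ) (S : Set ℕ) :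
    Dx f x (fun n => if n ∈ S then ψ n else 0) := by
  induction h with
  | zero => exact Dx_zero' fun n => by simp
  | single m =>
    by_cases hm : m ∈ S
    · refine Dx_congr (Dx.single m) fun n => ?_
      by_cases hn : n = m
      · subst hn; simp [hm]
      · simp [hn]
    · refine Dx_zero' fun n => ?_
      by_cases hn : n = m
      · subst hn; simp [hm]
      · simp [hn]
  | step k a ψ ha hk hψ hs ih =>
    refine Dx_congr (Dx.step k a (fun i n => if n ∈ S then ψ i n else 0) ha hk ih ?_) ?_
    · intro i hi n hn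
      apply hs i hi n
      intro h0
      apply hn
      simp [h0]
    · intro n
      by_cases hn : n ∈ S
      · simp [hn]
      · simp [hn]

theorem exists_cut (k : ℕ) (Z : ℕ → Prop) : ∃ k' ≤ k, (∀ i, k' ≤ i → i < k → Z i) ∧
    (k' = 0 ∨ ∃ k'', k' = k'' + 1 ∧ ¬ Z k'') := by
  induction k with
  | zero => exact ⟨0, le_rfl, fun i _ hi => absurd hi (Nat.not_lt_zero i), Or.inl rfl⟩
  | succ k ih =>
    by_cases hZ : Z k
    · obtain ⟨k', hk', h1, h2⟩ := ih
      refine ⟨k', by omega, fun i hi hik => ?_, h2⟩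
      rcases Nat.lt_or_ge i k with h | h
      · exact h1 i hi h
      · have : i = k := by omega
        rw [this]; exact hZ
    · exact ⟨k + 1, le_rfl, fun i hi hik => by omega, Or.inr ⟨k, rfl, hZ⟩⟩

theorem Dx_local {ψ : ℕ → ℝ} (h : Dx f x ψ) (D : ℕ) (hD : ∀ n, D < n → ψ n = 0)
    (hx : ∀ i < D, x i = x' i) : Dx f x' ψ := by
  induction h with
  | zero => exact Dx.zero
  | single m => exact Dx.single m
  | step k a ψ ha hk hψ hs ih =>
    have hz : ∀ i < k, ∀ n, D < n → ψ i n = 0 := by
      intro i hi n hn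
      have h1 := hD n hn
      dsimp only at h1
      have h2 : ∑ i ∈ Finset.range k, ψ i n = 0 := by linarith
      rw [Finset.sum_eq_zero_iff_of_nonneg
        (fun i hi => Dx_nonneg (hψ i (Finset.mem_range.mp hi)) n)] at h2
      exact h2 i (Finset.mem_range.mpr hi)
    have hψ' : ∀ i < k, Dx f x' (ψ i) := fun i hi => ih i hi (hz i hi)
    obtain ⟨k', hk', h1, h2⟩ := exists_cut k (fun i => ∀ n, ψ i n = 0)
    rcases h2 with h2 | ⟨k'', rfl, h2⟩
    · refine Dx_zero' fun n => ?_
      rw [Finset.sum_eq_zero fun i hi => h1 i (by omega) (Finset.mem_range.mp hi) n, mul_zero]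
    · push Not at h2
      obtain ⟨n, hn⟩ := h2
      have h3 := (hs k'' (by omega) n hn).1
      have h4 : k'' ≤ a k'' := ha.id_le k''
      have h5 : n ≤ D := by
        by_contra hcon
        exact hn (hz k'' (by omega) n (by omega))
      refine Dx_congr (Dx.step (k'' + 1) a ψ ha ?_ (fun i hi => hψ' i (by omega)) ?_) ?_
      · rcases hk with hk | ⟨y, hy1, hy2⟩
        · left; omega
        · right
          refine ⟨y, fun i hi => hy1 i (by omega), fun i hi => ?_⟩
          rw [hy2 i (by omega)]
          exact hx i (by omega)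
      · intro i hi n hn
        have := hs i (by omega) n hn
        exact ⟨this.1, fun h => this.2 (by omega)⟩
      · intro n
        congr 1
        symm
        apply Finset.sum_subset
        · exact Finset.range_subset_range.mpr hk'
        · intro i hi hi'
          rw [Finset.mem_range] at hi hi'
          exact h1 i (by omega) hi n

/-! ### nodes -/

theorem node_length (x : ℕ → Bool) (n : ℕ) : (node x n).length = n := by simp [node]

theorem ext_node (x : ℕ → Bool) {n i : ℕ} (hi : i < n) : ext (node x n) i = x i := by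
  unfold ext node
  rw [List.getD_eq_getElem _ _ (by simpa using hi)]
  simp

theorem node_ext (t : Node) : node (ext t) t.length = t := by
  apply List.ext_getElem
  · simp [node]
  · intro i h1 h2
    simp only [node, List.getElem_map, List.getElem_range]
    unfold ext
    rw [List.getD_eq_getElem _ _ h2]

theorem node_eq_iff (x x' : ℕ → Bool) (n : ℕ) : node x n = node x' n ↔ ∀ i < n, x i = x' i := by
  constructor
  · intro h i hi
    rw [← ext_node x hi, h, ext_node x' hi]
  · intro h
    unfold node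
    apply List.map_congr_left
    intro i hi
    exact h i (List.mem_range.mp hi)

theorem node_prefix (x : ℕ → Bool) {n m : ℕ} (h : n ≤ m) : node x n <+: node x m := by
  obtain ⟨d, rfl⟩ := Nat.exists_eq_add_of_le h
  refine ⟨((List.range d).map (n + ·)).map x, ?_⟩
  unfold node
  rw [List.range_add, List.map_append]

theorem abs_sum_eq {k : ℕ} {u : ℕ → ℝ}
    (h : ∀ i < k, ∀ j < k, u i ≠ 0 → u j ≠ 0 → i = j) :
    |∑ i ∈ Finset.range k, u i| = ∑ i ∈ Finset.range k, |u i| := by
  by_cases hex : ∃ i < k, u i ≠ 0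
  · obtain ⟨i, hi, hne⟩ := hex
    have h0 : ∀ j ∈ Finset.range k, j ≠ i → u j = 0 := by
      intro j hj hji
      by_contra hcon
      exact hji (h j (Finset.mem_range.mp hj) i hi hcon hne)
    rw [Finset.sum_eq_single i h0 (fun h => absurd (Finset.mem_range.mpr hi) h),
      Finset.sum_eq_single i (fun j hj hji => by rw [h0 j hj hji, abs_zero])
        (fun h => absurd (Finset.mem_range.mpr hi) h)]
  · push Not at hex
    rw [Finset.sum_eq_zero fun i hi => hex i (Finset.mem_range.mp hi),
      Finset.sum_eq_zero fun i hi => by rw [hex i (Finset.mem_range.mp hi), abs_zero], abs_zero]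

theorem good_Phi (f : (ℕ → ℕ) → (ℕ → Bool)) : Good (Phi f) := by
  classical
  constructor
  · intro t x
    by_cases h : node x t.length = t
    · refine Dx_congr (Dx.single t.length) fun n => ?_
      by_cases hn : n = t.length
      · subst hn; rw [h]; simp
      · have h1 : t ≠ node x n := by
          intro h2
          apply hn
          rw [h2, node_length]
        rw [Finsupp.single_eq_of_ne h1.symm, if_neg hn, abs_zero]
    · refine Dx_zero' fun n => ?_
      have h1 : t ≠ node x n := by
        intro h2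
        apply h
        conv_rhs => rw [h2]
        rw [h2, node_length]
      rw [Finsupp.single_eq_of_ne h1.symm, abs_zero]
  · intro φ hφ t
    have h := Dx_le_one (hφ (ext t)) t.length
    rwa [node_ext] at h
  · intro φ hφ χ hχ x
    refine Dx_congr (Dx_restrict (hφ x) {n | χ (node x n) ≠ 0}) fun n => ?_
    by_cases h : χ (node x n) = 0
    · simp [h]
    · rw [if_pos (show n ∈ {n | χ (node x n) ≠ 0} from h)]
      rcases hχ (node x n) with h1 | h1
      · exact absurd h1 h
      · exact h1

theorem branch_Phi (f : (ℕ → ℕ) → (ℕ → Bool)) (x : ℕ → Bool) (ψ : ℕ → ℝ) (h : Dx f x ψ) :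
    ∃ φ ∈ Phi f, (∀ n, φ (node x n) = ψ n) ∧ ∀ t, φ t ≠ 0 → t = node x t.length := by
  classical
  obtain ⟨M, hM⟩ := Dx_finite h
  let F : Node → ℝ := fun t => if t = node x t.length then ψ t.length else 0
  have hF : ∀ t, F t ≠ 0 → t ∈ (Finset.range (M + 1)).image (node x) := by
    intro t ht
    by_cases h1 : t = node x t.length
    · rw [Finset.mem_image]
      refine ⟨t.length, ?_, h1.symm⟩
      rw [Finset.mem_range]
      by_contra hcon
      apply ht
      simp only [F]
      rw [if_pos h1]
      exact hM _ (by omega)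
    · exfalso
      apply ht
      simp only [F]
      rw [if_neg h1]
  let φ : Node →₀ ℝ := Finsupp.onFinset _ F hF
  have hφ : ∀ t, φ t = F t := fun t => rfl
  have hφn : ∀ n, φ (node x n) = ψ n := by
    intro n
    rw [hφ]
    simp only [F]
    rw [node_length, if_pos rfl]
  refine ⟨φ, ?_, hφn, ?_⟩
  · intro x'
    by_cases hxx : ∃ i, x i ≠ x' i
    · -- first difference
      let D := Nat.find hxx
      have hD1 : x D ≠ x' D := Nat.find_spec hxx
      have hD2 : ∀ i < D, x i = x' i := fun i hi => not_not.mp (Nat.find_min hxx hi)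
      have hnode : ∀ n, node x' n = node x n ↔ n ≤ D := by
        intro n
        rw [node_eq_iff]
        constructor
        · intro h1
          by_contra hcon
          exact hD1 (h1 D (by omega)).symm
        · intro h1 i hi
          exact (hD2 i (by omega)).symm
      obtain ⟨S, hS⟩ : ∃ S : Set ℕ, ∀ n, n ∈ S ↔ n ≤ D := ⟨{n | n ≤ D}, fun n => Iff.rfl⟩
      refine Dx_congr (Dx_local (Dx_restrict h S) D ?_ hD2) ?_
      · intro n hn
        exact if_neg (fun h => by rw [hS] at h; omega)
      · intro n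
        by_cases hn : n ≤ D
        · rw [if_pos ((hS n).mpr hn), (hnode n).mpr hn, hφn, abs_of_nonneg (Dx_nonneg h n)]
        · rw [if_neg (fun h => hn ((hS n).mp h)), hφ]
          simp only [F]
          rw [node_length, if_neg (fun h => hn ((hnode n).mp h)), abs_zero]
    · push Not at hxx
      have : x' = x := funext fun i => (hxx i).symm
      rw [this]
      exact Dx_congr h fun n => by rw [hφn, abs_of_nonneg (Dx_nonneg h n)]
  · intro t ht
    by_contra hcon
    apply ht
    rw [hφ]
    simp only [F]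
    rw [if_neg hcon]

theorem incomparable_Phi (f : (ℕ → ℕ) → (ℕ → Bool)) (k : ℕ) (φ : ℕ → Node →₀ ℝ)
    (hφ : ∀ i < k, φ i ∈ Phi f)
    (hinc : ∀ i < k, ∀ j < k, i ≠ j → ∀ s t : Node, φ i s ≠ 0 → φ j t ≠ 0 → ¬ s <+: t) :
    ∑ i ∈ Finset.range k, φ i ∈ Phi f := by
  intro x
  have hval : ∀ t, (∑ i ∈ Finset.range k, φ i) t = ∑ i ∈ Finset.range k, φ i t := by
    intro t
    rw [Finsupp.finsetSum_apply]
  by_cases hex : ∃ i < k, ∃ n, φ i (node x n) ≠ 0
  · obtain ⟨i, hi, n₀, hn₀⟩ := hex
    refine Dx_congr (hφ i hi x) fun n => ?_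
    rw [hval, Finset.sum_eq_single i]
    · intro j hj hji
      by_contra hcon
      rcases Nat.le_total n n₀ with h | h
      · exact hinc j (Finset.mem_range.mp hj) i hi hji _ _ hcon hn₀ (node_prefix x h)
      · exact hinc i hi j (Finset.mem_range.mp hj) hji.symm _ _ hn₀ hcon (node_prefix x h)
    · intro h; exact absurd (Finset.mem_range.mpr hi) h
  · push Not at hex
    refine Dx_zero' fun n => ?_
    rw [hval, Finset.sum_eq_zero fun i hi => hex i (Finset.mem_range.mp hi) n, abs_zero]

theorem separated_Phi (f : (ℕ → ℕ) → (ℕ → Bool)) (g m : ℕ → ℕ) (k : ℕ) (φ : ℕ → Node →₀ ℝ)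
    (hm : StrictMono m) (hg : ∀ i, g i ≤ m i) (him : ∀ i, i < m i)
    (hφ : ∀ i < k, φ i ∈ Phi f)
    (hsep : ∀ i < k, ∀ t : Node, φ i t ≠ 0 → m i ≤ t.length ∧ t.length < m (i + 1) ∧
        ∃ y : ℕ → ℕ, (∀ j ≤ i, y j ≤ g j) ∧ ∀ j ≤ i, f y j = ext t j) :
    (1 / 2 : ℝ) • ∑ i ∈ Finset.range k, φ i ∈ Phi f := by
  intro x
  have hval : ∀ n, |((1 / 2 : ℝ) • ∑ i ∈ Finset.range k, φ i) (node x n)| =
      (1 / 2) * ∑ i ∈ Finset.range k, |φ i (node x n)| := by
    intro n
    rw [Finsupp.smul_apply, Finsupp.finsetSum_apply, smul_eq_mul, abs_mul,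
      abs_of_nonneg (by norm_num : (0 : ℝ) ≤ 1 / 2)]
    congr 1
    apply abs_sum_eq
    have key : ∀ i j, i < k → j < k → φ i (node x n) ≠ 0 → φ j (node x n) ≠ 0 → ¬ i < j := by
      intro i j hi hj h h' hij
      have h1 := (hsep i hi _ h).2.1
      have h2 := (hsep j hj _ h').1
      have h3 : m (i + 1) ≤ m j := hm.monotone hij
      omega
    intro i hi j hj h h'
    have h1 := key i j hi hj h h'
    have h2 := key j i hj hi h' h
    omega
  obtain ⟨k', hk', h1, h2⟩ := exists_cut k (fun i => ∀ n, φ i (node x n) = 0)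
  rcases h2 with h2 | ⟨k'', rfl, h2⟩
  · refine Dx_zero' fun n => ?_
    rw [hval, Finset.sum_eq_zero fun i hi => by
      rw [h1 i (by omega) (Finset.mem_range.mp hi) n, abs_zero], mul_zero]
  · push Not at h2
    obtain ⟨n, hn⟩ := h2
    obtain ⟨h3, -, y, hy1, hy2⟩ := hsep k'' (by omega) _ hn
    rw [node_length] at h3
    refine Dx_congr (Dx.step (k'' + 1) m (fun i n => |φ i (node x n)|) hm ?_
      (fun i hi => hφ i (by omega) x) ?_) ?_
    · right
      refine ⟨y, fun i hi => (hy1 i (by omega)).trans (hg i), fun i hi => ?_⟩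
      rw [hy2 i (by omega)]
      apply ext_node
      have := him k''
      omega
    · intro i hi n hn
      have hn' : φ i (node x n) ≠ 0 := by
        intro h0
        apply hn
        simp [h0]
      have h4 := hsep i (by omega) _ hn'
      rw [node_length] at h4
      exact ⟨h4.1, fun _ => h4.2.1⟩
    · intro n
      rw [hval]
      congr 1
      symm
      apply Finset.sum_subset
      · exact Finset.range_subset_range.mpr hk'
      · intro i hi hi'
        rw [Finset.mem_range] at hi hi'
        rw [h1 i (by omega) hi n, abs_zero]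

theorem stmtD : StmtD := fun f =>
  ⟨good_Phi f, branch_Phi f, incomparable_Phi f,
    fun g m k φ h1 h2 h3 h4 h5 => separated_Phi f g m k φ h1 h2 h3 h4 h5⟩

end Pool.Agent.Helper36.TK
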